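import Pool.Agent.Work.MP_d0383e_an.One.Main

namespace Pool.Agent.Results.MP_d0383e_an.OneFlow

open Pool.Agent.Work.MP_d0383e_an
open scoped ContDiff

/-- For a unit direction `P` with `p₃ ≠ 0` the following are equivalent: (1) `P = ±e₃`;
(2) curvature strictly lowers the effective burning velocity in direction `P` for all data;
(3) it is false that arbitrarily weak smooth shear flows exist, each fixed before `d`, whose
burning velocity in direction `P` exists and exceeds the one for `d = 0` by `c d` for all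
small `d`. -/
theorem result (P : E3) (hP : ‖P‖ = 1) (h3 : P 2 ≠ 0) :
    List.TFAE
      [P 0 = 0 ∧ P 1 = 0,
        ∀ (f : ℝ × ℝ → ℝ) (d A : ℝ), (∃ K, LipschitzWith K f) →
          (∀ (x y : ℝ) (m n : ℤ), f (x + m, y + n) = f (x, y)) → (∃ x y, f x ≠ f y) →
          0 < d → 0 < A → ∀ (G G₀ : E3 × ℝ → ℝ) (H H₀ : ℝ),
            IsViscSol f A d P G → HasBurningVelocity P G H →
            IsViscSol f A 0 P G₀ → HasBurningVelocity P G₀ H₀ → H < H₀,
        ¬ ∀ η : ℝ, 0 < η → ∃ d₀ c : ℝ, 0 < d₀ ∧ 0 < c ∧ ∀ A : ℝ, 0 < A →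
          ∃ f : ℝ × ℝ → ℝ, ContDiff ℝ ∞ f ∧
            (∀ (x y : ℝ) (m n : ℤ), f (x + m, y + n) = f (x, y)) ∧ (∃ x y, f x ≠ f y) ∧
            (∀ x, |A * f x| ≤ η) ∧ ∃ H₀ : ℝ, (∃ G₀, IsViscSol f A 0 P G₀) ∧
              (∀ G₀, IsViscSol f A 0 P G₀ → HasBurningVelocity P G₀ H₀) ∧
              ∀ d : ℝ, 0 < d → d < d₀ →
                (∃ G H, IsViscSol f A d P G ∧ HasBurningVelocity P G H) ∧
                ∀ G, IsViscSol f A d P G →
                  (∃ C : ℝ, ∀ (X : E3) (t : ℝ), 0 ≤ t →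
                    G (X, t) - inner ℝ P X ≤ C - (H₀ + c * d) * t) ∧
                  ∀ H, HasBurningVelocity P G H → H₀ + c * d ≤ H] := by
  tfae_have 1 → 2 := by
    rintro ⟨h0, h1⟩ f d A ⟨K, hK⟩ hper hne hd hA G G₀ H H₀ hG hH hG₀ hH₀
    exact Dir.slowdown hK.continuous hper hne hA hd hP h0 h1 hG hH hG₀ hH₀
  tfae_have 2 → 3 := by
    intro h2 h
    obtain ⟨d₀, c, hd₀, hc, h⟩ := h 1 one_pos
    obtain ⟨f, hf, hper, hne, -, H₀, ⟨G₀, hG₀⟩, hH₀, h⟩ := h 1 one_pos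
    obtain ⟨⟨G, H, hG, hH⟩, hle⟩ := h (d₀ / 2) (by positivity) (by linarith)
    have a := h2 f (d₀ / 2) 1 (lipschitz_of_per f (hf.of_le (by exact_mod_cast le_top)) hper) hper
      hne (by positivity) one_pos G G₀ H H₀ hG hH hG₀ (hH₀ G₀ hG₀)
    have b := (hle G hG).2 H hH
    have : 0 < c * (d₀ / 2) := by positivity
    linarith
  tfae_have 3 → 1 := by
    intro h
    by_contra hn
    refine h fun η hη => ?_
    obtain ⟨d₀, c, hd₀, hc, h⟩ := One.speedup hP h3 hn hη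
    refine ⟨d₀, c, hd₀, hc, fun A hA => ?_⟩
    obtain ⟨f, hf, hper, hne, hη', hG₀, hH₀, h⟩ := h A hA
    refine ⟨f, hf, hper, hne, hη', 1, hG₀, hH₀, fun d hd hd' => ⟨(h d hd hd').1, fun G hG => ?_⟩⟩
    obtain ⟨C, hC⟩ := (h d hd hd').2 G hG
    exact ⟨⟨C, hC⟩, fun H hH => One.velocity_ge' hC hH⟩
  tfae_finish

end Pool.Agent.Results.MP_d0383e_an.OneFlow
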